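import Pool.Agent.Lib.MP_5e7226_co.WL.Final

set_option autoImplicit false
open scoped InnerProductSpace

namespace Pool.Agent.Results.MP_5e7226_co.FractionalQ1

/-- The face of `K` with outer normal vector `u`: the points of `K` at which `⟪u, ·⟫` attains its
maximum over `K`. -/
def face {d : ℕ} (K : Set (EuclideanSpace ℝ (Fin d))) (u : EuclideanSpace ℝ (Fin d)) :
    Set (EuclideanSpace ℝ (Fin d)) := {x | x ∈ K ∧ ∀ y ∈ K, ⟪u, y⟫_ℝ ≤ ⟪u, x⟫_ℝ}

/-- The hyperplane `{x | ⟪w, x⟫ = b}` strictly separates the set `F` from the point `o`. -/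
def StrictlySeparates {d : ℕ} (w : EuclideanSpace ℝ (Fin d)) (b : ℝ)
    (F : Set (EuclideanSpace ℝ (Fin d))) (o : EuclideanSpace ℝ (Fin d)) : Prop :=
  (⟪w, o⟫_ℝ < b ∧ ∀ x ∈ F, b < ⟪w, x⟫_ℝ) ∨ (b < ⟪w, o⟫_ℝ ∧ ∀ x ∈ F, ⟪w, x⟫_ℝ < b)

/-- `WeightedSep K o s`: there are finitely many hyperplanes with nonnegative weights of total
weight at most `s`, such that for every face `F` of `K` the hyperplanes which strictly separate `F`
from `o` have total weight at least `1`. -/
def WeightedSep {d : ℕ} (K : Set (EuclideanSpace ℝ (Fin d))) (o : EuclideanSpace ℝ (Fin d))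
    (s : ℝ) : Prop :=
  ∃ (N : ℕ) (w : Fin N → EuclideanSpace ℝ (Fin d)) (b c : Fin N → ℝ), (∀ i, 0 ≤ c i) ∧
    ∑ i, c i ≤ s ∧ ∀ u : EuclideanSpace ℝ (Fin d), u ≠ 0 →
      1 ≤ ∑ i, {i | StrictlySeparates (w i) (b i) (face K u) o}.indicator c i

/-- The fractional form of Q1. For every convex body `K` in `E^d`, `d ≥ 1`, and every interior point
`o` of `K`, total weight `2^d` suffices; and no smaller total weight suffices if and only if `K` is
a cross-body centred at `o`. -/
theorem result {d : ℕ} (hd : 0 < d) (K : Set (EuclideanSpace ℝ (Fin d))) (hconv : Convex ℝ K)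
    (hK : IsCompact K) (o : EuclideanSpace ℝ (Fin d)) (ho : o ∈ interior K) :
    WeightedSep K o (2 ^ d) ∧
      ((¬ ∃ s : ℝ, s < 2 ^ d ∧ WeightedSep K o s) ↔
        ∃ (v : Fin d → EuclideanSpace ℝ (Fin d)) (t : Fin d → ℝ), LinearIndependent ℝ v ∧
          (∀ k, 0 < t k) ∧ K = convexHull ℝ (⋃ k, {o + v k, o - t k • v k})) := by
  have h := Pool.Agent.Lib.MP_5e7226_co.WL.weighted_main hd K hconv hK o ho
  classical
  have heq : ∀ s : ℝ, WeightedSep K o s ↔
      Pool.Agent.Lib.MP_5e7226_co.WL.WeightedSep K o s := by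
    intro s
    constructor
    · rintro ⟨N, w, b, c, h1, h2, h3⟩
      refine ⟨N, w, b, c, h1, h2, fun u hu => ?_⟩
      refine (h3 u hu).trans (le_of_eq (Finset.sum_congr rfl fun i _ => ?_))
      rw [Set.indicator_apply]
      simp only [Set.mem_ofPred_eq]
      congr 1
    · rintro ⟨N, w, b, c, h1, h2, h3⟩
      refine ⟨N, w, b, c, h1, h2, fun u hu => ?_⟩
      refine (h3 u hu).trans (le_of_eq (Finset.sum_congr rfl fun i _ => ?_))
      rw [Set.indicator_apply]
      simp only [Set.mem_ofPred_eq]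
      congr 1
  simpa only [heq] using h

end Pool.Agent.Results.MP_5e7226_co.FractionalQ1
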