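import Pool.Agent.Lib.MP_5e7226_co.VF.V5

set_option autoImplicit false

open scoped InnerProductSpace

namespace Pool.Agent.Results.MP_5e7226_co.GeneralBound

/-- `s(K, o) ≤ n`: some `n` hyperplanes strictly separate every face of `K` from `o`. -/
def SeparatedBy {d : ℕ} (K : Set (EuclideanSpace ℝ (Fin d))) (o : EuclideanSpace ℝ (Fin d))
    (n : ℕ) : Prop :=
  ∃ w : Fin n → EuclideanSpace ℝ (Fin d), ∃ b : Fin n → ℝ,
    ∀ u x₀ : EuclideanSpace ℝ (Fin d), u ≠ 0 → x₀ ∈ K →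
      (∀ y ∈ K, ⟪u, y⟫_ℝ ≤ ⟪u, x₀⟫_ℝ) →
        ∃ i, ⟪w i, o⟫_ℝ < b i ∧ ∀ x ∈ K, ⟪u, x⟫_ℝ = ⟪u, x₀⟫_ℝ → b i < ⟪w i, x⟫_ℝ

/-- `I(K) ≤ n`: some `n` points outside `K` illuminate every boundary point `q` of `K`: the
half-line from one of them through `q` meets the interior of `K` at a point beyond `q`. -/
def IlluminatedBy {d : ℕ} (K : Set (EuclideanSpace ℝ (Fin d))) (n : ℕ) : Prop :=
  ∃ p : Fin n → EuclideanSpace ℝ (Fin d), (∀ i, p i ∉ K) ∧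
    ∀ q ∈ frontier K, ∃ i, ∃ s : ℝ, 0 < s ∧ q + s • (q - p i) ∈ interior K

/-- `s(K, o) ≤ n` and `I(K) ≤ n` for all convex bodies `K` in `E^d` and all interior points `o`. -/
def Bound (d n : ℕ) : Prop :=
  ∀ K : Set (EuclideanSpace ℝ (Fin d)), Convex ℝ K → IsCompact K → (interior K).Nonempty →
    (∀ o ∈ interior K, SeparatedBy K o n) ∧ IlluminatedBy K n

/-- The bound `n + 1` whenever `((1+t)^d - 1) (1 - (2+t)^(-d))^n < t^d` for some `t > 0`; in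
particular some integer `n ≤ 2^d (d ln d + d ln ln d + d)` for all `d ≥ 3`, and `432`, `1146`,
`2884`, `7002` for `d = 5, 6, 7, 8`. -/
theorem result :
    (∀ d : ℕ, 1 ≤ d → ∀ t : ℝ, 0 < t → ∀ n : ℕ,
      ((1 + t) ^ d - 1) * (1 - 1 / (2 + t) ^ d) ^ n < t ^ d → Bound d (n + 1)) ∧
    (∀ d : ℕ, 3 ≤ d → ∃ n : ℕ,
      (n : ℝ) ≤ 2 ^ d * (d * Real.log d + d * Real.log (Real.log d) + d) ∧ Bound d n) ∧
    (Bound 5 432 ∧ Bound 6 1146 ∧ Bound 7 2884 ∧ Bound 8 7002) := by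
  have key : ∀ d : ℕ, 1 ≤ d → ∀ (t : ℝ) (n : ℕ),
      Pool.Agent.Lib.MP_5e7226_co.VF.Crit d t n → Bound d (n + 1) := by
    intro d hd t n h K hc hK hi
    obtain ⟨h1, h2⟩ := Pool.Agent.Lib.MP_5e7226_co.VF.bound_of_crit hd h K hc hK
    exact ⟨h1, h2 hi⟩
  refine ⟨fun d hd t ht n h => key d hd t n ⟨ht, h⟩, fun d hd => ?_, ?_⟩
  · obtain ⟨t, n, h1, h2⟩ := Pool.Agent.Lib.MP_5e7226_co.VF.numerics hd
    exact ⟨n + 1, h2, key d (by omega) t n h1⟩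
  · exact ⟨key 5 (by norm_num) _ _ Pool.Agent.Lib.MP_5e7226_co.VF.crit5,
      key 6 (by norm_num) _ _ Pool.Agent.Lib.MP_5e7226_co.VF.crit6,
      key 7 (by norm_num) _ _ Pool.Agent.Lib.MP_5e7226_co.VF.crit7,
      key 8 (by norm_num) _ _ Pool.Agent.Lib.MP_5e7226_co.VF.crit8⟩

end Pool.Agent.Results.MP_5e7226_co.GeneralBound
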