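import Pool.Agent.Lib.MP_5e7226_co.C8.Final
import Pool.Agent.Lib.MP_5e7226_co.C8.T10.Top

set_option autoImplicit false
open scoped InnerProductSpace

namespace Pool.Agent.Results.MP_5e7226_co.GeneralBoundE3

/-- For every convex body `K` in `E^3` and every interior point `o` of `K`, ten planes suffice
to strictly separate every face of `K` from `o`. -/
theorem result (K : Set (EuclideanSpace ℝ (Fin 3))) (_hconv : Convex ℝ K) (hK : IsCompact K)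
    (o : EuclideanSpace ℝ (Fin 3)) (ho : o ∈ interior K) :
    ∃ w : Fin 10 → EuclideanSpace ℝ (Fin 3), ∃ b : Fin 10 → ℝ,
      ∀ u x₀ : EuclideanSpace ℝ (Fin 3), u ≠ 0 → x₀ ∈ K →
        (∀ y ∈ K, ⟪u, y⟫_ℝ ≤ ⟪u, x₀⟫_ℝ) →
          ∃ i, ⟪w i, o⟫_ℝ < b i ∧
            ∀ x ∈ K, ⟪u, x⟫_ℝ = ⟪u, x₀⟫_ℝ → b i < ⟪w i, x⟫_ℝ :=
  Pool.Agent.Lib.MP_5e7226_co.C8.final_separation
    Pool.Agent.Lib.MP_5e7226_co.C8.illumT10 K hK o ho

end Pool.Agent.Results.MP_5e7226_co.GeneralBoundE3
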