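import Pool.Agent.Lib.MP_5e7226_co.C8.SY7.End7
import Pool.Agent.Lib.MP_5e7226_co.C8.T7S.Top
import Pool.Agent.Lib.MP_5e7226_co.IN.Res4
import Pool.Agent.Lib.MP_5e7226_co.MM.Final
import Pool.Agent.Lib.MP_5e7226_co.RT.Any
import Pool.Agent.Lib.MP_5e7226_co.RT.Final

set_option autoImplicit false
open scoped InnerProductSpace

namespace Pool.Agent.Results.MP_5e7226_co.LinearSymmetries

/-- `g` is a linear reflection: it fixes the hyperplane `⟪u, x⟫ = 0` pointwise and maps `a` to `-a`. -/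
def IsReflection {d : ℕ} (g : EuclideanSpace ℝ (Fin d) → EuclideanSpace ℝ (Fin d)) : Prop :=
  ∃ a u : EuclideanSpace ℝ (Fin d), ⟪u, a⟫_ℝ = 2 ∧ ∀ x, g x = x - ⟪u, x⟫_ℝ • a

/-- `g` is a linear symmetry of `K` about the point `o`. -/
def IsSymmetry {d : ℕ} (K : Set (EuclideanSpace ℝ (Fin d))) (o : EuclideanSpace ℝ (Fin d))
    (g : EuclideanSpace ℝ (Fin d) → EuclideanSpace ℝ (Fin d)) : Prop :=
  IsLinearMap ℝ g ∧ ∀ x, o + x ∈ K ↔ o + g x ∈ K

/-- No linear subspace except `0` and the whole space is invariant under all the linear symmetries of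
`K` about `o`, where for `d ≠ 3` only those which are reflections are used. -/
def HasIrreducibleSymmetries {d : ℕ} (K : Set (EuclideanSpace ℝ (Fin d)))
    (o : EuclideanSpace ℝ (Fin d)) : Prop :=
  ∀ p : Submodule ℝ (EuclideanSpace ℝ (Fin d)),
    (∀ g : EuclideanSpace ℝ (Fin d) → EuclideanSpace ℝ (Fin d), (d = 3 ∨ IsReflection g) →
      IsSymmetry K o g → ∀ x ∈ p, g x ∈ p) → p = ⊥ ∨ p = ⊤

/-- `K` is a body in `E^3` with `o` in its interior and with a linear symmetry `g` about `o` which is not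
the identity. -/
def HasSymmetry {d : ℕ} (K : Set (EuclideanSpace ℝ (Fin d))) (o : EuclideanSpace ℝ (Fin d)) : Prop :=
  d = 3 ∧ o ∈ interior K ∧ ∃ g : EuclideanSpace ℝ (Fin d) →ₗ[ℝ] EuclideanSpace ℝ (Fin d),
    IsSymmetry K o g ∧ ∃ x, g x ≠ x

/-- `K` is a body in `E^3` with `o` in its interior and with a linear symmetry `g` about `o` such that
`det g > 0` and `g ∘ g` is not the identity: in suitable coordinates, a rotation about an axis through
`o` of an order at least `3` (or infinite). -/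
def HasRotation {d : ℕ} (K : Set (EuclideanSpace ℝ (Fin d))) (o : EuclideanSpace ℝ (Fin d)) : Prop :=
  d = 3 ∧ o ∈ interior K ∧ ∃ g : EuclideanSpace ℝ (Fin d) →ₗ[ℝ] EuclideanSpace ℝ (Fin d),
    IsSymmetry K o g ∧ 0 < LinearMap.det g ∧ ∃ x, g (g x) ≠ x

/-- `K` is a body in `E^3` with `o` in its interior and with a reflection among its linear symmetries
about `o`: a mirror through `o`. -/
def HasMirror {d : ℕ} (K : Set (EuclideanSpace ℝ (Fin d))) (o : EuclideanSpace ℝ (Fin d)) : Prop :=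
  d = 3 ∧ o ∈ interior K ∧ ∃ g : EuclideanSpace ℝ (Fin d) → EuclideanSpace ℝ (Fin d),
    IsReflection g ∧ IsSymmetry K o g

/-- `K` is a body in `E^3` with `o` in its interior which is symmetric about `o`: it has the centre
`o`. -/
def HasCentre {d : ℕ} (K : Set (EuclideanSpace ℝ (Fin d))) (o : EuclideanSpace ℝ (Fin d)) : Prop :=
  d = 3 ∧ o ∈ interior K ∧ ∀ x, o + x ∈ K → o - x ∈ K

/-- `s(K, o) ≤ n`: some `n` hyperplanes strictly separate every face of `K` from `o`. -/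
def SeparatedBy {d : ℕ} (K : Set (EuclideanSpace ℝ (Fin d))) (o : EuclideanSpace ℝ (Fin d))
    (n : ℕ) : Prop :=
  ∃ w : Fin n → EuclideanSpace ℝ (Fin d), ∃ b : Fin n → ℝ,
    ∀ u x₀ : EuclideanSpace ℝ (Fin d), u ≠ 0 → x₀ ∈ K →
      (∀ y ∈ K, ⟪u, y⟫_ℝ ≤ ⟪u, x₀⟫_ℝ) →
        ∃ i, ⟪w i, o⟫_ℝ < b i ∧ ∀ x ∈ K, ⟪u, x⟫_ℝ = ⟪u, x₀⟫_ℝ → b i < ⟪w i, x⟫_ℝ

/-- `K` is a cross-body centred at `o`. -/
def IsCrossBody {d : ℕ} (K : Set (EuclideanSpace ℝ (Fin d))) (o : EuclideanSpace ℝ (Fin d)) :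
    Prop :=
  ∃ v : Fin d → EuclideanSpace ℝ (Fin d), ∃ t : Fin d → ℝ,
    LinearIndependent ℝ v ∧ (∀ i, 0 < t i) ∧
      K = convexHull ℝ (⋃ i, ({o + v i, o - t i • v i} : Set (EuclideanSpace ℝ (Fin d))))

/-- `I(K) ≤ n`: some `n` points outside `K` illuminate every boundary point `q` of `K`: the
half-line from one of them through `q` meets the interior of `K` at a point beyond `q`. -/
def IlluminatedBy {d : ℕ} (K : Set (EuclideanSpace ℝ (Fin d))) (n : ℕ) : Prop :=
  ∃ p : Fin n → EuclideanSpace ℝ (Fin d), (∀ i, p i ∉ K) ∧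
    ∀ q ∈ frontier K, ∃ i, ∃ s : ℝ, 0 < s ∧ q + s • (q - p i) ∈ interior K

/-- `K` is an affine `d`-cube. -/
def IsAffineCube {d : ℕ} (K : Set (EuclideanSpace ℝ (Fin d))) : Prop :=
  ∃ p : EuclideanSpace ℝ (Fin d), ∃ v : Fin d → EuclideanSpace ℝ (Fin d),
    LinearIndependent ℝ v ∧ K = {x | ∃ c : Fin d → ℝ, (∀ i, |c i| ≤ 1) ∧ x = p + ∑ i, c i • v i}

/-- Let `d ≥ 3` and let `K` be a convex body in `E^d` with irreducible symmetries about the point `o` (for
`d ≥ 4`: mirror symmetries), or let `d = 3` and let `K` have any linear symmetry about its interior point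
`o` except the identity. Then `s(K, o) ≤ 2 ^ d` and `I(K) ≤ 2 ^ d`. If the symmetries are irreducible, or
`d = 3` and `K` has the centre `o`, a mirror through `o` or a rotation of order at least `3` about an axis
through `o`, then the equality parts of both conjectures hold, too. -/
theorem result {d : ℕ} (hd : 3 ≤ d) (o : EuclideanSpace ℝ (Fin d)) (K : Set (EuclideanSpace ℝ (Fin d)))
    (hconv : Convex ℝ K) (hcomp : IsCompact K) (hint : (interior K).Nonempty)
    (h : HasIrreducibleSymmetries K o ∨ HasSymmetry K o) :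
    SeparatedBy K o (2 ^ d) ∧ IlluminatedBy K (2 ^ d) ∧
      (HasIrreducibleSymmetries K o ∨ HasRotation K o ∨ HasMirror K o ∨ HasCentre K o →
        (¬ SeparatedBy K o (2 ^ d - 1) → IsCrossBody K o) ∧
          (¬ IlluminatedBy K (2 ^ d - 1) → IsAffineCube K)) := by
  have hfull : HasIrreducibleSymmetries K o ∨ HasRotation K o ∨ HasMirror K o ∨ HasCentre K o →
      SeparatedBy K o (2 ^ d) ∧ (¬ SeparatedBy K o (2 ^ d - 1) → IsCrossBody K o) ∧
        IlluminatedBy K (2 ^ d) ∧ (¬ IlluminatedBy K (2 ^ d - 1) → IsAffineCube K) := by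
    rintro (hirr | ⟨rfl, ho, g, hg, hdet, hx⟩ | ⟨rfl, ho, g, ⟨a, u, hau, hgx⟩, hg⟩ | ⟨rfl, ho, hs⟩)
    · exact Pool.Agent.Lib.MP_5e7226_co.IN.good_of_irreducible hd hconv hcomp hint hirr
    · exact Pool.Agent.Lib.MP_5e7226_co.RT.good_of_rot hconv hcomp ho ⟨hg.2, hdet, hx⟩
    · exact Pool.Agent.Lib.MP_5e7226_co.MM.good_of_mirror hconv hcomp ho hau
        (fun x => by rw [← hgx x]; exact hg.2 x)
    · exact Pool.Agent.Lib.MP_5e7226_co.C8.SY7.good_of_centre
        Pool.Agent.Lib.MP_5e7226_co.C8.SY7.illum7s hconv hcomp ho (fun x hx => by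
          have h1 := hs (x - o) (by rwa [add_sub_cancel])
          rwa [show o - (x - o) = (2 : ℝ) • o - x by rw [two_smul]; abel] at h1)
  have hbound : SeparatedBy K o (2 ^ d) ∧ IlluminatedBy K (2 ^ d) := by
    rcases h with hirr | ⟨rfl, ho, g, hg, hx⟩
    · exact ⟨(hfull (Or.inl hirr)).1, (hfull (Or.inl hirr)).2.2.1⟩
    · exact Pool.Agent.Lib.MP_5e7226_co.RT.any8 hconv hcomp ho hg.2 hx
  exact ⟨hbound.1, hbound.2, fun h' => ⟨(hfull h').2.1, (hfull h').2.2.2⟩⟩

end Pool.Agent.Results.MP_5e7226_co.LinearSymmetries
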